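import Mathlib

/-!
# MP_7fb13b_lc : basic definitions (two-coordinate unitaries, row norms, projections)
-/

open Matrix

set_option linter.unusedSectionVars false

namespace RotFourier

variable {ι : Type*} [Fintype ι] [DecidableEq ι]

/-- Squared norm of the row `a` of `A`. -/
noncomputable def rowSq (A : Matrix ι ι ℂ) (a : ι) : ℝ := ∑ k, ‖A a k‖ ^ 2

/-- Squared Frobenius norm. -/
noncomputable def fro (A : Matrix ι ι ℂ) : ℝ := ∑ a, rowSq A a

/-- Orthogonal projection matrices (Hermitian idempotents). -/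
structure IsPr (Q : Matrix ι ι ℂ) : Prop where
  herm : Q.conjTranspose = Q
  idem : Q * Q = Q

/-- `R` is a unitary matrix which agrees with the identity outside the rows and columns
`i ≠ j`. -/
structure IsTwo (R : Matrix ι ι ℂ) (i j : ι) : Prop where
  ne : i ≠ j
  unit : R ∈ Matrix.unitaryGroup ι ℂ
  row : ∀ a, a ≠ i → a ≠ j → ∀ b, R a b = (1 : Matrix ι ι ℂ) a b
  col : ∀ b, b ≠ i → b ≠ j → ∀ a, R a b = (1 : Matrix ι ι ℂ) a b

lemma rowSq_nonneg (A : Matrix ι ι ℂ) (a : ι) : 0 ≤ rowSq A a :=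
  Finset.sum_nonneg fun _ _ => by positivity

lemma fro_nonneg (A : Matrix ι ι ℂ) : 0 ≤ fro A :=
  Finset.sum_nonneg fun _ _ => rowSq_nonneg _ _

/-- `rowSq` as a diagonal entry of `A * Aᴴ`. -/
lemma rowSq_eq (A : Matrix ι ι ℂ) (a : ι) :
    ((rowSq A a : ℝ) : ℂ) = (A * Aᴴ) a a := by
  rw [Matrix.mul_apply, rowSq, Complex.ofReal_sum]
  refine Finset.sum_congr rfl fun k _ => ?_
  rw [Matrix.conjTranspose_apply, Complex.star_def, Complex.mul_conj, Complex.normSq_eq_norm_sq]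

lemma rowSq_eq_re (A : Matrix ι ι ℂ) (a : ι) : rowSq A a = ((A * Aᴴ) a a).re := by
  rw [← rowSq_eq, Complex.ofReal_re]

lemma fro_eq_trace (A : Matrix ι ι ℂ) : fro A = ((A * Aᴴ).trace).re := by
  unfold fro Matrix.trace
  rw [Complex.re_sum]
  exact Finset.sum_congr rfl fun a _ => rowSq_eq_re A a

namespace IsPr

variable {Q Q' : Matrix ι ι ℂ}

lemma zero : IsPr (0 : Matrix ι ι ℂ) := ⟨by simp, by simp⟩

lemma compl (h : IsPr Q) : IsPr (1 - Q) := by
  refine ⟨by rw [Matrix.conjTranspose_sub, Matrix.conjTranspose_one, h.herm], ?_⟩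
  rw [mul_sub, mul_one, sub_mul, one_mul, h.idem, sub_self, sub_zero]

lemma mul_compl (h : IsPr Q) : Q * (1 - Q) = 0 := by
  rw [mul_sub, mul_one, h.idem, sub_self]

lemma compl_mul (h : IsPr Q) : (1 - Q) * Q = 0 := by
  rw [sub_mul, one_mul, h.idem, sub_self]

/-- `rowSq (A Q)` in terms of the quadratic form. -/
lemma rowSq_mul (h : IsPr Q) (A : Matrix ι ι ℂ) (a : ι) :
    rowSq (A * Q) a = ((A * Q * Aᴴ) a a).re := by
  rw [rowSq_eq_re, Matrix.conjTranspose_mul, h.herm]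
  congr 2
  rw [Matrix.mul_assoc A Q (Q * Aᴴ), ← Matrix.mul_assoc Q Q Aᴴ, h.idem, ← Matrix.mul_assoc]

/-- Pythagoras for rows. -/
lemma rowSq_add_compl (h : IsPr Q) (A : Matrix ι ι ℂ) (a : ι) :
    rowSq (A * Q) a + rowSq (A * (1 - Q)) a = rowSq A a := by
  rw [h.rowSq_mul, h.compl.rowSq_mul, rowSq_eq_re, ← Complex.add_re, ← Matrix.add_apply,
    ← Matrix.add_mul, ← Matrix.mul_add, add_sub_cancel, Matrix.mul_one]

lemma rowSq_mul_le (h : IsPr Q) (A : Matrix ι ι ℂ) (a : ι) :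
    rowSq (A * Q) a ≤ rowSq A a := by
  have := h.rowSq_add_compl A a
  have := rowSq_nonneg (A * (1 - Q)) a
  linarith

/-- `Q` below `Q'`. -/
lemma left_of_right (h : IsPr Q) (h' : IsPr Q') (hl : Q' * Q = Q) : Q * Q' = Q := by
  have := congrArg Matrix.conjTranspose hl
  rwa [Matrix.conjTranspose_mul, h.herm, h'.herm] at this

lemma sub (h : IsPr Q) (h' : IsPr Q') (hl : Q' * Q = Q) : IsPr (Q' - Q) := by
  refine ⟨by rw [Matrix.conjTranspose_sub, h.herm, h'.herm], ?_⟩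
  rw [sub_mul, mul_sub, mul_sub, h.idem, h'.idem, hl, left_of_right h h' hl]
  abel

/-- The complement decreases. -/
lemma rowSq_compl_anti (h : IsPr Q) (h' : IsPr Q') (hl : Q' * Q = Q) (A : Matrix ι ι ℂ) (a : ι) :
    rowSq (A * (1 - Q')) a ≤ rowSq (A * (1 - Q)) a := by
  have e1 : A * (1 - Q') = (A * (1 - Q)) * (1 - Q') := by
    rw [Matrix.mul_assoc]
    congr 1
    rw [sub_mul, one_mul, mul_sub, mul_one, left_of_right h h' hl]
    abel
  rw [e1]
  exact h'.compl.rowSq_mul_le _ _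

/-- Trace is the squared Frobenius norm. -/
lemma trace_eq_fro (h : IsPr Q) : Q.trace.re = fro Q := by
  rw [fro_eq_trace, h.herm, h.idem]

lemma trace_nonneg (h : IsPr Q) : 0 ≤ Q.trace.re := by
  rw [h.trace_eq_fro]; exact fro_nonneg _

lemma fro_mul_le (h : IsPr Q) (A : Matrix ι ι ℂ) : fro (A * Q) ≤ fro A :=
  Finset.sum_le_sum fun a _ => h.rowSq_mul_le A a

end IsPr

/-- Left multiplication by a unitary preserves the Frobenius norm. -/
lemma fro_unitary_mul {U : Matrix ι ι ℂ} (hU : U ∈ Matrix.unitaryGroup ι ℂ) (A : Matrix ι ι ℂ) :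
    fro (U * A) = fro A := by
  rw [fro_eq_trace, fro_eq_trace, Matrix.conjTranspose_mul, Matrix.trace_mul_comm,
    Matrix.mul_assoc, ← Matrix.mul_assoc Uᴴ U A]
  have : Uᴴ * U = 1 := Matrix.mem_unitaryGroup_iff'.1 hU
  rw [this, Matrix.one_mul, Matrix.trace_mul_comm]

/-- Right multiplication by a unitary preserves the row norms. -/
lemma rowSq_mul_unitary {U : Matrix ι ι ℂ} (hU : U ∈ Matrix.unitaryGroup ι ℂ) (A : Matrix ι ι ℂ)
    (a : ι) : rowSq (A * U) a = rowSq A a := by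
  rw [rowSq_eq_re, rowSq_eq_re, Matrix.conjTranspose_mul]
  congr 2
  rw [Matrix.mul_assoc A U, ← Matrix.mul_assoc U Uᴴ]
  have : U * Uᴴ = 1 := Matrix.mem_unitaryGroup_iff.1 hU
  rw [this, Matrix.one_mul]

lemma rowSq_unitary {U : Matrix ι ι ℂ} (hU : U ∈ Matrix.unitaryGroup ι ℂ) (a : ι) :
    rowSq U a = 1 := by
  rw [rowSq_eq_re]
  have : U * Uᴴ = 1 := Matrix.mem_unitaryGroup_iff.1 hU
  rw [this]; simp

/-- squared norm of the pair of entries `i, j` in column `k` -/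
noncomputable def pairSq (N : Matrix ι ι ℂ) (i j k : ι) : ℝ := ‖N i k‖ ^ 2 + ‖N j k‖ ^ 2

lemma pairSq_nonneg (N : Matrix ι ι ℂ) (i j k : ι) : 0 ≤ pairSq N i j k := by
  unfold pairSq; positivity

lemma sum_pairSq (N : Matrix ι ι ℂ) (i j : ι) :
    ∑ k, pairSq N i j k = rowSq N i + rowSq N j := by
  unfold pairSq rowSq; rw [Finset.sum_add_distrib]

namespace IsTwo

variable {R : Matrix ι ι ℂ} {i j : ι}

lemma mul_apply_of_ne (h : IsTwo R i j) (N : Matrix ι ι ℂ) {a : ι} (hi : a ≠ i) (hj : a ≠ j)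
    (k : ι) : (R * N) a k = N a k := by
  rw [Matrix.mul_apply]
  rw [Finset.sum_congr rfl fun b _ => by rw [h.row a hi hj b]]
  rw [← Matrix.mul_apply, Matrix.one_mul]

lemma mul_apply_of_mem (h : IsTwo R i j) (N : Matrix ι ι ℂ) {a : ι} (ha : a = i ∨ a = j)
    (k : ι) : (R * N) a k = R a i * N i k + R a j * N j k := by
  rw [Matrix.mul_apply]
  have h0 : ∀ b ∈ (Finset.univ : Finset ι), b ∉ ({i, j} : Finset ι) → R a b * N b k = 0 := by
    intro b _ hb
    have hbi : b ≠ i := fun hh => hb (by simp [hh])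
    have hbj : b ≠ j := fun hh => hb (by simp [hh])
    rw [h.col b hbi hbj a, Matrix.one_apply_ne, zero_mul]
    rintro rfl
    rcases ha with rfl | rfl
    · exact hbi rfl
    · exact hbj rfl
  rw [← Finset.sum_subset (Finset.subset_univ ({i, j} : Finset ι)) h0,
    Finset.sum_pair h.ne]

lemma norm_entry_le (h : IsTwo R i j) (a b : ι) : ‖R a b‖ ≤ 1 :=
  entry_norm_bound_of_unitary h.unit a b

/-- The total squared norm of a column is preserved, hence so is the pair norm. -/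
lemma pairSq_mul (h : IsTwo R i j) (N : Matrix ι ι ℂ) (k : ι) :
    pairSq (R * N) i j k = pairSq N i j k := by
  have hcol : ∀ A : Matrix ι ι ℂ, (∑ a, ‖A a k‖ ^ 2 : ℝ) = ((Aᴴ * A) k k).re := by
    intro A
    rw [Matrix.mul_apply, Complex.re_sum]
    refine Finset.sum_congr rfl fun a _ => ?_
    rw [Matrix.conjTranspose_apply, Complex.star_def, mul_comm, Complex.mul_conj,
      Complex.normSq_eq_norm_sq, Complex.ofReal_re]
  have h1 : (∑ a, ‖(R * N) a k‖ ^ 2 : ℝ) = ∑ a, ‖N a k‖ ^ 2 := by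
    rw [hcol, hcol, Matrix.conjTranspose_mul, Matrix.mul_assoc, ← Matrix.mul_assoc Rᴴ R N]
    have : Rᴴ * R = 1 := Matrix.mem_unitaryGroup_iff'.1 h.unit
    rw [this, Matrix.one_mul]
  have h2 : ∀ A : Matrix ι ι ℂ, (∑ a, ‖A a k‖ ^ 2 : ℝ) =
      pairSq A i j k + ∑ a ∈ (Finset.univ \ {i, j} : Finset ι), ‖A a k‖ ^ 2 := by
    intro A
    rw [← Finset.sum_sdiff (Finset.subset_univ ({i, j} : Finset ι)), Finset.sum_pair h.ne,
      pairSq, add_comm]
  rw [h2, h2] at h1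
  have h3 : ∑ a ∈ (Finset.univ \ {i, j} : Finset ι), ‖(R * N) a k‖ ^ 2 =
      ∑ a ∈ (Finset.univ \ {i, j} : Finset ι), ‖N a k‖ ^ 2 := by
    refine Finset.sum_congr rfl fun a ha => ?_
    simp only [Finset.mem_sdiff, Finset.mem_univ, true_and, Finset.mem_insert,
      Finset.mem_singleton, not_or] at ha
    rw [h.mul_apply_of_ne N ha.1 ha.2]
  rw [h3] at h1
  linarith

end IsTwo

end RotFourier
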