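import Mathlib
import Pool.Agent.Lib.MP_7fb13b_lc.H9.Basic

/-!
# MP_7fb13b_lc : soft truncations on the logarithmic scale

`tr w x = w (log ‖x‖) * x` for a weight `w : ℝ → [0,1]` with Lipschitz constant `K`.
Such an entrywise map commutes with two-coordinate unitaries up to an error of size
`3 K` times the norm of the pair.
-/

open Matrix

set_option linter.unusedSectionVars false

namespace RotFourier

variable {ι : Type*} [Fintype ι] [DecidableEq ι]

/-- Weight functions: values in `[0,1]`, Lipschitz constant `K`. -/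
structure IsWt (K : ℝ) (w : ℝ → ℝ) : Prop where
  nonneg : ∀ u, 0 ≤ w u
  le_one : ∀ u, w u ≤ 1
  lip : ∀ u v, |w u - w v| ≤ K * |u - v|

/-- Soft truncation of a complex number. -/
noncomputable def tr (w : ℝ → ℝ) (x : ℂ) : ℂ := (w (Real.log ‖x‖) : ℂ) * x

/-- Entrywise soft truncation. -/
noncomputable def trM (w : ℝ → ℝ) (A : Matrix ι ι ℂ) : Matrix ι ι ℂ := A.map (tr w)

@[simp] lemma trM_apply (w : ℝ → ℝ) (A : Matrix ι ι ℂ) (a k : ι) :
    trM w A a k = tr w (A a k) := rfl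

@[simp] lemma tr_zero (w : ℝ → ℝ) : tr w 0 = 0 := by simp [tr]

namespace IsWt

variable {K : ℝ} {w : ℝ → ℝ}

lemma K_nonneg (h : IsWt K w) : 0 ≤ K := by
  have := h.lip 1 0
  have h2 := abs_nonneg (w 1 - w 0)
  simp at this
  linarith

lemma norm_tr (h : IsWt K w) (x : ℂ) : ‖tr w x‖ = w (Real.log ‖x‖) * ‖x‖ := by
  rw [tr, norm_mul, Complex.norm_real, Real.norm_eq_abs, abs_of_nonneg (h.nonneg _)]

lemma norm_tr_le (h : IsWt K w) (x : ℂ) : ‖tr w x‖ ≤ ‖x‖ := by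
  rw [h.norm_tr]
  have := h.le_one (Real.log ‖x‖)
  nlinarith [norm_nonneg x]

lemma tr_of_one {x : ℂ} (hx : w (Real.log ‖x‖) = 1) : tr w x = x := by
  simp [tr, hx]

lemma tr_of_zero {x : ℂ} (hx : w (Real.log ‖x‖) = 0) : tr w x = 0 := by
  simp [tr, hx]

/-- `(log t - log s) * s ≤ t - s`. -/
lemma log_sub_mul_le {s t : ℝ} (hs : 0 < s) (hst : s ≤ t) :
    (Real.log t - Real.log s) * s ≤ t - s := by
  have ht : 0 < t := lt_of_lt_of_le hs hst
  rw [← Real.log_div ht.ne' hs.ne']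
  have := Real.log_le_sub_one_of_pos (div_pos ht hs)
  have h2 : Real.log (t / s) * s ≤ (t / s - 1) * s := mul_le_mul_of_nonneg_right this hs.le
  have h3 : (t / s - 1) * s = t - s := by field_simp
  linarith

/-- Comparison with the linear map having the weight at the level `t`. -/
lemma norm_tr_sub_le (h : IsWt K w) {x : ℂ} {t : ℝ} (hx : ‖x‖ ≤ t) :
    ‖tr w x - (w (Real.log t) : ℂ) * x‖ ≤ K * t := by
  have hK := h.K_nonneg
  have ht : 0 ≤ t := (norm_nonneg x).trans hx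
  by_cases hx0 : x = 0
  · subst hx0
    simpa using mul_nonneg hK ht
  have hxp : 0 < ‖x‖ := norm_pos_iff.2 hx0
  rw [tr, ← sub_mul, ← Complex.ofReal_sub, norm_mul, Complex.norm_real, Real.norm_eq_abs]
  have h1 := h.lip (Real.log ‖x‖) (Real.log t)
  have h2 : |Real.log ‖x‖ - Real.log t| = Real.log t - Real.log ‖x‖ := by
    rw [abs_sub_comm, abs_of_nonneg]
    exact sub_nonneg.2 (Real.log_le_log hxp hx)
  rw [h2] at h1
  have h3 := log_sub_mul_le hxp hx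
  calc |w (Real.log ‖x‖) - w (Real.log t)| * ‖x‖
      ≤ (K * (Real.log t - Real.log ‖x‖)) * ‖x‖ := mul_le_mul_of_nonneg_right h1 hxp.le
    _ = K * ((Real.log t - Real.log ‖x‖) * ‖x‖) := by ring
    _ ≤ K * t := by
        apply mul_le_mul_of_nonneg_left _ hK
        linarith

/-- If `w = 1` above the level `x₁`, the truncation differs from the identity by at most
`K x₁`. -/
lemma norm_sub_tr_le (h : IsWt K w) {x₁ : ℝ} (hx₁ : 0 < x₁)
    (hw : ∀ u, Real.log x₁ ≤ u → w u = 1) (x : ℂ) : ‖x - tr w x‖ ≤ K * x₁ := by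
  have hK := h.K_nonneg
  by_cases hc : x₁ ≤ ‖x‖
  · rw [tr_of_one (hw _ (Real.log_le_log hx₁ hc)), sub_self, norm_zero]
    exact mul_nonneg hK hx₁.le
  · push Not at hc
    have := h.norm_tr_sub_le hc.le
    rw [hw _ le_rfl, Complex.ofReal_one, one_mul] at this
    rwa [norm_sub_rev]

/-- Lipschitz bound. -/
lemma lipschitz (h : IsWt K w) (x y : ℂ) : ‖tr w x - tr w y‖ ≤ (1 + K) * ‖x - y‖ := by
  have hK := h.K_nonneg
  wlog hxy : ‖y‖ ≤ ‖x‖ generalizing x y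
  · rw [norm_sub_rev, norm_sub_rev x y]
    exact this y x (le_of_not_ge hxy)
  by_cases hy0 : y = 0
  · subst hy0
    simp only [tr_zero, sub_zero]
    have := h.norm_tr_le x
    nlinarith [norm_nonneg x]
  have hyp : 0 < ‖y‖ := norm_pos_iff.2 hy0
  have e1 : tr w x - tr w y = (w (Real.log ‖x‖) : ℂ) * (x - y) +
      ((w (Real.log ‖x‖) - w (Real.log ‖y‖) : ℝ) : ℂ) * y := by
    rw [tr, tr]; push_cast; ring
  rw [e1]
  refine (norm_add_le _ _).trans ?_
  rw [norm_mul, norm_mul, Complex.norm_real, Complex.norm_real, Real.norm_eq_abs,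
    Real.norm_eq_abs, abs_of_nonneg (h.nonneg _)]
  have h1 := h.lip (Real.log ‖x‖) (Real.log ‖y‖)
  have h2 : |Real.log ‖x‖ - Real.log ‖y‖| = Real.log ‖x‖ - Real.log ‖y‖ :=
    abs_of_nonneg (sub_nonneg.2 (Real.log_le_log hyp hxy))
  rw [h2] at h1
  have h3 := log_sub_mul_le hyp hxy
  have h4 : |w (Real.log ‖x‖) - w (Real.log ‖y‖)| * ‖y‖ ≤ K * (‖x‖ - ‖y‖) := by
    calc |w (Real.log ‖x‖) - w (Real.log ‖y‖)| * ‖y‖
        ≤ (K * (Real.log ‖x‖ - Real.log ‖y‖)) * ‖y‖ := mul_le_mul_of_nonneg_right h1 hyp.le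
      _ = K * ((Real.log ‖x‖ - Real.log ‖y‖) * ‖y‖) := by ring
      _ ≤ K * (‖x‖ - ‖y‖) := mul_le_mul_of_nonneg_left h3 hK
  have h5 : ‖x‖ - ‖y‖ ≤ ‖x - y‖ := norm_sub_norm_le x y
  have h6 : w (Real.log ‖x‖) * ‖x - y‖ ≤ 1 * ‖x - y‖ :=
    mul_le_mul_of_nonneg_right (h.le_one _) (norm_nonneg _)
  have h7 : K * (‖x‖ - ‖y‖) ≤ K * ‖x - y‖ := mul_le_mul_of_nonneg_left h5 hK
  linarith

lemma rowSq_trM_le (h : IsWt K w) (A : Matrix ι ι ℂ) (a : ι) : rowSq (trM w A) a ≤ rowSq A a := by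
  unfold rowSq
  refine Finset.sum_le_sum fun k _ => ?_
  rw [trM_apply]
  have := h.norm_tr_le (A a k)
  have h0 := norm_nonneg (tr w (A a k))
  nlinarith [norm_nonneg (A a k)]

lemma fro_trM_le (h : IsWt K w) (A : Matrix ι ι ℂ) : fro (trM w A) ≤ fro A :=
  Finset.sum_le_sum fun a _ => h.rowSq_trM_le A a

/-- `⟨A_a, χ(A)_a⟩ ≥ ‖χ(A)_a‖²`. -/
lemma rowSq_trM_le_inner (h : IsWt K w) (A : Matrix ι ι ℂ) (a : ι) :
    rowSq (trM w A) a ≤ ((A * (trM w A)ᴴ) a a).re := by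
  rw [Matrix.mul_apply, Complex.re_sum, rowSq]
  refine Finset.sum_le_sum fun k _ => ?_
  rw [Matrix.conjTranspose_apply, trM_apply, tr, Complex.star_def, map_mul, Complex.conj_ofReal,
    norm_mul, Complex.norm_real, Real.norm_eq_abs, abs_of_nonneg (h.nonneg _)]
  have e : A a k * ((w (Real.log ‖A a k‖) : ℂ) * (starRingEnd ℂ) (A a k)) =
      ((w (Real.log ‖A a k‖) * ‖A a k‖ ^ 2 : ℝ) : ℂ) := by
    push_cast
    rw [mul_left_comm, Complex.mul_conj, Complex.normSq_eq_norm_sq]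
    push_cast; ring
  rw [e, Complex.ofReal_re, mul_pow]
  apply mul_le_mul_of_nonneg_right _ (by positivity)
  have h0 := h.nonneg (Real.log ‖A a k‖)
  have h1 := h.le_one (Real.log ‖A a k‖)
  nlinarith

end IsWt

/-! ### Commutation with two-coordinate unitaries -/

section Comm

variable {R : Matrix ι ι ℂ} {i j : ι} {K : ℝ} {w : ℝ → ℝ}

lemma norm_le_sqrt_pairSq (N : Matrix ι ι ℂ) {a i j : ι} (ha : a = i ∨ a = j) (k : ι) :
    ‖N a k‖ ≤ Real.sqrt (pairSq N i j k) := by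
  apply Real.le_sqrt_of_sq_le
  unfold pairSq
  rcases ha with rfl | rfl
  · linarith [sq_nonneg ‖N j k‖]
  · linarith [sq_nonneg ‖N i k‖]

lemma comm_of_ne (hR : IsTwo R i j) (w : ℝ → ℝ) (N : Matrix ι ι ℂ) {a : ι} (hi : a ≠ i)
    (hj : a ≠ j) (k : ι) : (trM w (R * N) - R * trM w N) a k = 0 := by
  rw [Matrix.sub_apply, trM_apply, hR.mul_apply_of_ne N hi hj, hR.mul_apply_of_ne _ hi hj,
    trM_apply, sub_self]

lemma comm_bound (hR : IsTwo R i j) (hw : IsWt K w) (N : Matrix ι ι ℂ) (a k : ι) :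
    ‖(trM w (R * N) - R * trM w N) a k‖ ≤ 3 * K * Real.sqrt (pairSq N i j k) := by
  have hK := hw.K_nonneg
  have hs := Real.sqrt_nonneg (pairSq N i j k)
  by_cases ha : a = i ∨ a = j
  swap
  · push Not at ha
    rw [comm_of_ne hR w N ha.1 ha.2, norm_zero]
    positivity
  set t := Real.sqrt (pairSq N i j k) with ht
  have h0 : ‖(R * N) a k‖ ≤ t := by
    rw [ht, ← hR.pairSq_mul N k]
    exact norm_le_sqrt_pairSq _ ha k
  have h1 := hw.norm_tr_sub_le h0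
  have h2 := hw.norm_tr_sub_le (norm_le_sqrt_pairSq N (Or.inl rfl : i = i ∨ i = j) k)
  have h3 := hw.norm_tr_sub_le (norm_le_sqrt_pairSq N (Or.inr rfl : j = i ∨ j = j) k)
  rw [← ht] at h2 h3
  have e : (trM w (R * N) - R * trM w N) a k =
      (tr w ((R * N) a k) - (w (Real.log t) : ℂ) * (R * N) a k) -
      R a i * (tr w (N i k) - (w (Real.log t) : ℂ) * N i k) -
      R a j * (tr w (N j k) - (w (Real.log t) : ℂ) * N j k) := by
    rw [Matrix.sub_apply, trM_apply, hR.mul_apply_of_mem _ ha, hR.mul_apply_of_mem _ ha,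
      trM_apply, trM_apply]
    ring
  rw [e]
  have n1 := hR.norm_entry_le a i
  have n2 := hR.norm_entry_le a j
  calc _ ≤ ‖tr w ((R * N) a k) - (w (Real.log t) : ℂ) * (R * N) a k‖ +
      ‖R a i * (tr w (N i k) - (w (Real.log t) : ℂ) * N i k)‖ +
      ‖R a j * (tr w (N j k) - (w (Real.log t) : ℂ) * N j k)‖ :=
        (norm_sub_le _ _).trans (add_le_add_left (norm_sub_le _ _) _)
    _ ≤ K * t + 1 * (K * t) + 1 * (K * t) := by
        rw [norm_mul, norm_mul]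
        gcongr
    _ = 3 * K * t := by ring

/-- Bound by the cut level. -/
lemma comm_bound_cut (hR : IsTwo R i j) (hw : IsWt K w) {x₁ : ℝ} (hx₁ : 0 < x₁)
    (hw1 : ∀ u, Real.log x₁ ≤ u → w u = 1) (N : Matrix ι ι ℂ) (a k : ι) :
    ‖(trM w (R * N) - R * trM w N) a k‖ ≤ 3 * K * x₁ := by
  have hK := hw.K_nonneg
  by_cases ha : a = i ∨ a = j
  swap
  · push Not at ha
    rw [comm_of_ne hR w N ha.1 ha.2, norm_zero]
    positivity
  have e : (trM w (R * N) - R * trM w N) a k =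
      -((R * N) a k - tr w ((R * N) a k)) +
      R a i * (N i k - tr w (N i k)) + R a j * (N j k - tr w (N j k)) := by
    rw [Matrix.sub_apply, trM_apply, hR.mul_apply_of_mem _ ha, hR.mul_apply_of_mem _ ha,
      trM_apply, trM_apply]
    ring
  rw [e]
  have n1 := hR.norm_entry_le a i
  have n2 := hR.norm_entry_le a j
  have h1 := hw.norm_sub_tr_le hx₁ hw1 ((R * N) a k)
  have h2 := hw.norm_sub_tr_le hx₁ hw1 (N i k)
  have h3 := hw.norm_sub_tr_le hx₁ hw1 (N j k)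
  calc _ ≤ ‖-((R * N) a k - tr w ((R * N) a k))‖ + ‖R a i * (N i k - tr w (N i k))‖ +
      ‖R a j * (N j k - tr w (N j k))‖ :=
        (norm_add_le _ _).trans (add_le_add_left (norm_add_le _ _) _)
    _ ≤ K * x₁ + 1 * (K * x₁) + 1 * (K * x₁) := by
        rw [norm_mul, norm_mul, norm_neg]
        gcongr
    _ = 3 * K * x₁ := by ring

/-- Vanishing for pairs below the lower cut level. -/
lemma comm_zero_of_small (hR : IsTwo R i j) {x₀ : ℝ} (hx₀ : 0 < x₀)
    (hw0 : ∀ u, u ≤ Real.log x₀ → w u = 0) (N : Matrix ι ι ℂ) (a k : ι)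
    (hs : Real.sqrt (pairSq N i j k) ≤ x₀) : (trM w (R * N) - R * trM w N) a k = 0 := by
  by_cases ha : a = i ∨ a = j
  swap
  · push Not at ha
    exact comm_of_ne hR w N ha.1 ha.2 k
  have key : ∀ x : ℂ, ‖x‖ ≤ x₀ → tr w x = 0 := by
    intro x hx
    by_cases hx0 : x = 0
    · subst hx0; simp
    · exact IsWt.tr_of_zero (hw0 _ (Real.log_le_log (norm_pos_iff.2 hx0) hx))
  have h0 : ‖(R * N) a k‖ ≤ x₀ := by
    refine le_trans ?_ hs
    rw [← hR.pairSq_mul N k]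
    exact norm_le_sqrt_pairSq _ ha k
  have h2 := (norm_le_sqrt_pairSq N (Or.inl rfl : i = i ∨ i = j) k).trans hs
  have h3 := (norm_le_sqrt_pairSq N (Or.inr rfl : j = i ∨ j = j) k).trans hs
  rw [Matrix.sub_apply, trM_apply, key _ h0, hR.mul_apply_of_mem _ ha, trM_apply, trM_apply,
    key _ h2, key _ h3]
  simp

/-- Row norm of the commutator. -/
lemma rowSq_comm_le (hR : IsTwo R i j) (hw : IsWt K w) (N : Matrix ι ι ℂ)
    (hN : ∀ a, rowSq N a ≤ 1) (a : ι) :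
    rowSq (trM w (R * N) - R * trM w N) a ≤ (5 * K) ^ 2 := by
  have hK := hw.K_nonneg
  have h1 : rowSq (trM w (R * N) - R * trM w N) a ≤
      ∑ k, (9 * K ^ 2) * pairSq N i j k := by
    unfold rowSq
    refine Finset.sum_le_sum fun k _ => ?_
    have := comm_bound hR hw N a k
    have h2 : ‖(trM w (R * N) - R * trM w N) a k‖ ^ 2 ≤
        (3 * K * Real.sqrt (pairSq N i j k)) ^ 2 := pow_le_pow_left₀ (norm_nonneg _) this 2
    refine h2.trans (le_of_eq ?_)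
    rw [mul_pow, Real.sq_sqrt (pairSq_nonneg _ _ _ _)]
    ring
  rw [← Finset.mul_sum, sum_pairSq] at h1
  have h2 := hN i
  have h3 := hN j
  nlinarith [sq_nonneg K]

end Comm

/-! ### The three concrete weights -/

/-- clamp to `[0,1]` -/
noncomputable def cl (x : ℝ) : ℝ := max 0 (min 1 x)

lemma cl_nonneg (x : ℝ) : 0 ≤ cl x := le_max_left _ _

lemma cl_le_one (x : ℝ) : cl x ≤ 1 := max_le zero_le_one (min_le_left _ _)

lemma cl_of_one_le {x : ℝ} (h : 1 ≤ x) : cl x = 1 := by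
  unfold cl; rw [min_eq_left h]; simp

lemma cl_of_nonpos {x : ℝ} (h : x ≤ 0) : cl x = 0 := by
  unfold cl; rw [min_eq_right (h.trans zero_le_one), max_eq_left h]

lemma abs_cl_sub_le (x y : ℝ) : |cl x - cl y| ≤ |x - y| := by
  unfold cl
  refine (abs_max_sub_max_le_max _ _ _ _).trans ?_
  refine max_le (by simp) ?_
  refine (abs_min_sub_min_le_max _ _ _ _).trans ?_
  exact max_le (by simp) le_rfl

/-- ramp from `0` at `-(b+1) ℓ` to `1` at `-b ℓ`. -/
noncomputable def ramp (b ℓ u : ℝ) : ℝ := cl ((u + (b + 1) * ℓ) / ℓ)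

lemma ramp_one {b ℓ u : ℝ} (hℓ : 0 < ℓ) (h : -b * ℓ ≤ u) : ramp b ℓ u = 1 := by
  apply cl_of_one_le
  rw [le_div_iff₀ hℓ]; linarith

lemma ramp_zero {b ℓ u : ℝ} (hℓ : 0 < ℓ) (h : u ≤ -(b + 1) * ℓ) : ramp b ℓ u = 0 := by
  apply cl_of_nonpos
  rw [div_nonpos_iff]; right; constructor <;> linarith

lemma ramp_isWt {b ℓ : ℝ} (hℓ : 0 < ℓ) : IsWt (1 / ℓ) (ramp b ℓ) := by
  refine ⟨fun _ => cl_nonneg _, fun _ => cl_le_one _, fun u v => ?_⟩
  refine (abs_cl_sub_le _ _).trans (le_of_eq ?_)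
  rw [← sub_div, abs_div, abs_of_pos hℓ]
  rw [show u + (b + 1) * ℓ - (v + (b + 1) * ℓ) = u - v by ring]
  ring

/-- The window weight: `1` on `[-6ℓ, -3ℓ]`, `0` outside `[-7ℓ, -2ℓ]`. -/
noncomputable def win (ℓ u : ℝ) : ℝ := min (ramp 6 ℓ u) (cl ((-2 * ℓ - u) / ℓ))

lemma win_one {ℓ u : ℝ} (hℓ : 0 < ℓ) (h : -6 * ℓ ≤ u) (h' : u ≤ -3 * ℓ) : win ℓ u = 1 := by
  unfold win
  rw [ramp_one hℓ (by linarith), cl_of_one_le, min_self]
  rw [le_div_iff₀ hℓ]; linarith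

lemma win_zero_low {ℓ u : ℝ} (hℓ : 0 < ℓ) (h : u ≤ -7 * ℓ) : win ℓ u = 0 := by
  unfold win
  rw [ramp_zero hℓ (by linarith), min_eq_left (cl_nonneg _)]

lemma win_zero_high {ℓ u : ℝ} (hℓ : 0 < ℓ) (h : -2 * ℓ ≤ u) : win ℓ u = 0 := by
  unfold win
  have : cl ((-2 * ℓ - u) / ℓ) = 0 := by
    apply cl_of_nonpos
    rw [div_nonpos_iff]; right; constructor <;> linarith
  rw [this]
  exact min_eq_right (cl_nonneg _)

lemma win_isWt {ℓ : ℝ} (hℓ : 0 < ℓ) : IsWt (1 / ℓ) (win ℓ) := by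
  refine ⟨fun _ => le_min (cl_nonneg _) (cl_nonneg _), fun _ => (min_le_left _ _).trans
    (cl_le_one _), fun u v => ?_⟩
  unfold win
  refine (abs_min_sub_min_le_max _ _ _ _).trans ?_
  refine max_le ((ramp_isWt hℓ).lip u v) ?_
  refine (abs_cl_sub_le _ _).trans (le_of_eq ?_)
  rw [← sub_div, abs_div, abs_of_pos hℓ]
  rw [show -2 * ℓ - u - (-2 * ℓ - v) = -(u - v) by ring, abs_neg]
  ring

end RotFourier
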