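import Mathlib
import Pool.Agent.Lib.MP_7fb13b_lc.H9.Basic

/-!
# MP_7fb13b_lc : the objects of the problem
-/

open Matrix

set_option linter.unusedSectionVars false

namespace RotFourier

/-- The normalized discrete Fourier matrix `F(k,l) = n^{-1/2} exp(-2 π i k l / n)`. -/
noncomputable def dft (n : ℕ) : Matrix (Fin n) (Fin n) ℂ := fun k l =>
  ((Real.sqrt n : ℝ) : ℂ)⁻¹ *
    Complex.exp (-2 * Real.pi * Complex.I * ((k : ℕ) : ℂ) * ((l : ℕ) : ℂ) / (n : ℂ))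

/-- `G = [[0, F], [-F*, 0]]`. -/
noncomputable def rotG (n : ℕ) : Matrix (Fin n ⊕ Fin n) (Fin n ⊕ Fin n) ℂ :=
  Matrix.fromBlocks 0 (dft n) (-(dft n)ᴴ) 0

/-- `X_α = cos α · Id + sin α · G`. -/
noncomputable def rotX (n : ℕ) (α : ℝ) : Matrix (Fin n ⊕ Fin n) (Fin n ⊕ Fin n) ℂ :=
  ((Real.cos α : ℝ) : ℂ) • (1 : Matrix (Fin n ⊕ Fin n) (Fin n ⊕ Fin n) ℂ) +
    ((Real.sin α : ℝ) : ℂ) • rotG n

/-- A two-coordinate unitary: a unitary matrix which agrees with the identity except in the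
rows and columns of two distinct coordinates `i`, `j` (where it is a 2×2 unitary). -/
def IsTwoCoordinate {ι : Type*} [Fintype ι] [DecidableEq ι] (R : Matrix ι ι ℂ) : Prop :=
  R ∈ Matrix.unitaryGroup ι ℂ ∧ ∃ i j : ι, i ≠ j ∧
    ∀ a b : ι, ¬ ((a = i ∨ a = j) ∧ (b = i ∨ b = j)) → R a b = (1 : Matrix ι ι ℂ) a b

variable {ι : Type*} [Fintype ι] [DecidableEq ι]

lemma IsTwoCoordinate.exists_isTwo {R : Matrix ι ι ℂ} (h : IsTwoCoordinate R) :
    ∃ i j, IsTwo R i j := by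
  obtain ⟨hu, i, j, hij, h⟩ := h
  refine ⟨i, j, hij, hu, fun a hi hj b => h a b ?_, fun b hi hj a => h a b ?_⟩
  · rintro ⟨h1 | h1, _⟩
    · exact hi h1
    · exact hj h1
  · rintro ⟨_, h1 | h1⟩
    · exact hi h1
    · exact hj h1

/-! ### The Fourier matrix is unitary and flat -/

lemma dft_norm_sq {n : ℕ} (hn : 0 < n) (k l : Fin n) : ‖dft n k l‖ ^ 2 = 1 / n := by
  unfold dft
  have h1 : (-2 * Real.pi * Complex.I * ((k : ℕ) : ℂ) * ((l : ℕ) : ℂ) / (n : ℂ)) =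
      ((-2 * Real.pi * (k : ℕ) * (l : ℕ) / n : ℝ) : ℂ) * Complex.I := by
    push_cast; ring
  rw [norm_mul, h1, Complex.norm_exp_ofReal_mul_I, mul_one, norm_inv, Complex.norm_real,
    Real.norm_eq_abs, abs_of_nonneg (Real.sqrt_nonneg _), inv_pow, Real.sq_sqrt (by positivity),
    one_div]

lemma dft_mul_conjTranspose {n : ℕ} (hn : 0 < n) : dft n * (dft n)ᴴ = 1 := by
  have hn' : (n : ℂ) ≠ 0 := by exact_mod_cast hn.ne'
  ext k l
  rw [Matrix.mul_apply]
  -- the primitive root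
  set ζ : ℂ := Complex.exp (2 * Real.pi * Complex.I / n) with hζ
  have hprim : IsPrimitiveRoot ζ n := Complex.isPrimitiveRoot_exp n hn.ne'
  have hterm : ∀ j : Fin n, dft n k j * (dft n)ᴴ j l =
      (n : ℂ)⁻¹ * (ζ ^ ((l : ℕ)) * (ζ ^ ((k : ℕ)))⁻¹) ^ (j : ℕ) := by
    intro j
    rw [Matrix.conjTranspose_apply]
    unfold dft
    rw [Complex.star_def, map_mul, map_inv₀, Complex.conj_ofReal, ← Complex.exp_conj]
    have e1 : (starRingEnd ℂ) (-2 * Real.pi * Complex.I * ((l : ℕ) : ℂ) * ((j : ℕ) : ℂ) / (n : ℂ))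
        = 2 * Real.pi * Complex.I * ((l : ℕ) : ℂ) * ((j : ℕ) : ℂ) / (n : ℂ) := by
      simp only [map_div₀, map_mul, map_neg, Complex.conj_ofReal, Complex.conj_I,
        Complex.conj_natCast, Complex.conj_ofNat]
      ring
    rw [e1]
    have e2 : (((Real.sqrt n : ℝ) : ℂ))⁻¹ * (((Real.sqrt n : ℝ) : ℂ))⁻¹ = (n : ℂ)⁻¹ := by
      rw [← mul_inv, ← Complex.ofReal_mul, Real.mul_self_sqrt (by positivity)]
      simp
    have e3 : (ζ ^ ((l : ℕ)) * (ζ ^ ((k : ℕ)))⁻¹) ^ (j : ℕ) =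
        Complex.exp (-2 * Real.pi * Complex.I * ((k : ℕ) : ℂ) * ((j : ℕ) : ℂ) / (n : ℂ)) *
        Complex.exp (2 * Real.pi * Complex.I * ((l : ℕ) : ℂ) * ((j : ℕ) : ℂ) / (n : ℂ)) := by
      rw [hζ, ← Complex.exp_nat_mul, ← Complex.exp_nat_mul, ← Complex.exp_neg, ← Complex.exp_add,
        ← Complex.exp_nat_mul, ← Complex.exp_add]
      congr 1
      ring
    rw [e3, ← e2]
    ring
  rw [Finset.sum_congr rfl fun j _ => hterm j, ← Finset.mul_sum]
  by_cases hkl : k = l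
  · subst hkl
    have hz : ζ ^ ((k : ℕ)) ≠ 0 := pow_ne_zero _ (Complex.exp_ne_zero _)
    simp only [mul_inv_cancel₀ hz, one_pow, Finset.sum_const, Finset.card_univ, Fintype.card_fin,
      nsmul_eq_mul, mul_one, Matrix.one_apply_eq]
    exact inv_mul_cancel₀ hn'
  · rw [Matrix.one_apply_ne hkl]
    set q : ℂ := ζ ^ ((l : ℕ)) * (ζ ^ ((k : ℕ)))⁻¹ with hq
    have hq1 : q ≠ 1 := by
      intro h
      rw [hq] at h
      have hz : ζ ^ ((k : ℕ)) ≠ 0 := pow_ne_zero _ (Complex.exp_ne_zero _)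
      have h2 : ζ ^ ((l : ℕ)) = ζ ^ ((k : ℕ)) := by
        field_simp at h
        exact h
      have := hprim.pow_inj l.2 k.2 h2
      exact hkl (Fin.ext this.symm)
    have hqn : q ^ n = 1 := by
      rw [hq, mul_pow, inv_pow, ← pow_mul, ← pow_mul, mul_comm (l : ℕ), mul_comm (k : ℕ), pow_mul,
        pow_mul, hprim.pow_eq_one, one_pow, one_pow]
      simp
    have hsum : (∑ j : Fin n, q ^ (j : ℕ)) = 0 := by
      rw [Fin.sum_univ_eq_sum_range (fun j => q ^ j) n]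
      have := geom_sum_mul q n
      rw [hqn, sub_self] at this
      exact (mul_eq_zero.1 this).resolve_right (sub_ne_zero.2 hq1)
    rw [hsum, mul_zero]

lemma conjTranspose_mul_dft {n : ℕ} (hn : 0 < n) : (dft n)ᴴ * dft n = 1 :=
  mul_eq_one_comm.1 (dft_mul_conjTranspose hn)

lemma rotG_conjTranspose (n : ℕ) : (rotG n)ᴴ = -rotG n := by
  unfold rotG
  rw [Matrix.fromBlocks_conjTranspose, Matrix.fromBlocks_neg]
  simp

lemma rotG_mul_self {n : ℕ} (hn : 0 < n) : rotG n * rotG n = -1 := by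
  unfold rotG
  rw [Matrix.fromBlocks_multiply]
  simp only [Matrix.zero_mul, Matrix.mul_zero, zero_add, add_zero, Matrix.mul_neg, Matrix.neg_mul]
  rw [dft_mul_conjTranspose hn, conjTranspose_mul_dft hn, ← Matrix.fromBlocks_one,
    Matrix.fromBlocks_neg]
  simp

lemma rotG_mul_conjTranspose {n : ℕ} (hn : 0 < n) : rotG n * (rotG n)ᴴ = 1 := by
  rw [rotG_conjTranspose, Matrix.mul_neg, rotG_mul_self hn, neg_neg]

lemma rotG_diag (n : ℕ) (a : Fin n ⊕ Fin n) : rotG n a a = 0 := by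
  unfold rotG
  cases a <;> simp

lemma rotG_norm_sq_le {n : ℕ} (hn : 0 < n) (a b : Fin n ⊕ Fin n) :
    ‖rotG n a b‖ ^ 2 ≤ 1 / n := by
  unfold rotG
  have h0 : (0 : ℝ) ≤ 1 / n := by positivity
  rcases a with a | a <;> rcases b with b | b
  · simpa using h0
  · simpa using (dft_norm_sq hn a b).le
  · simp only [Matrix.fromBlocks_apply₂₁, Matrix.neg_apply, Matrix.conjTranspose_apply, norm_neg,
      norm_star]
    exact (dft_norm_sq hn b a).le
  · simpa using h0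

end RotFourier
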