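import Mathlib
import Pool.Agent.Lib.MP_7fb13b_lc.H9.Defs

/-!
# MP_7fb13b_lc : from lists of gates to sequences; the trivial bound
-/

open Matrix

set_option linter.unusedSectionVars false

namespace RotFourier

variable {ι : Type*} [Fintype ι] [DecidableEq ι]

/-- A list of two-coordinate unitaries as a sequence of gates `R 0, ..., R (m-1)` with partial
products `P`. -/
theorem exists_chain [Nonempty ι] (l : List (Matrix ι ι ℂ)) (hl : ∀ R ∈ l, IsTwoCoordinate R) :
    ∃ (P R : ℕ → Matrix ι ι ℂ) (i j : ℕ → ι), P 0 = 1 ∧
      (∀ t < l.length, IsTwo (R t) (i t) (j t)) ∧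
      (∀ t < l.length, P (t + 1) = R t * P t) ∧ P l.length = l.prod := by
  classical
  induction l with
  | nil =>
    refine ⟨fun _ => 1, fun _ => 1, fun _ => Classical.arbitrary ι, fun _ => Classical.arbitrary ι,
      rfl, ?_, ?_, by simp⟩
    · intro t ht; simp at ht
    · intro t ht; simp at ht
  | cons A l ih =>
    obtain ⟨P, R, i, j, h0, h2, hs, hp⟩ := ih fun R hR => hl R (List.mem_cons_of_mem _ hR)
    obtain ⟨a, b, hab⟩ := (hl A List.mem_cons_self).exists_isTwo
    refine ⟨Function.update P (l.length + 1) (A * l.prod), Function.update R l.length A,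
      Function.update i l.length a, Function.update j l.length b, ?_, ?_, ?_, ?_⟩
    · rw [Function.update_of_ne (by omega)]; exact h0
    · intro t ht
      rw [List.length_cons] at ht
      by_cases htl : t = l.length
      · subst htl
        simpa using hab
      · rw [Function.update_of_ne htl, Function.update_of_ne htl, Function.update_of_ne htl]
        exact h2 t (by omega)
    · intro t ht
      rw [List.length_cons] at ht
      by_cases htl : t = l.length
      · subst htl
        rw [Function.update_self, Function.update_self, Function.update_of_ne (by omega), hp]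
      · rw [Function.update_of_ne (by omega), Function.update_of_ne htl,
          Function.update_of_ne (by omega)]
        exact hs t (by omega)
    · rw [List.length_cons, Function.update_self, List.prod_cons]

/-- Every coordinate must be touched. -/
theorem card_le_two_mul {m : ℕ} {P R : ℕ → Matrix ι ι ℂ} {i j : ℕ → ι} (h0 : P 0 = 1)
    (h2 : ∀ t < m, IsTwo (R t) (i t) (j t)) (hs : ∀ t < m, P (t + 1) = R t * P t)
    (hX : ∀ a, P m a a ≠ 1) : Fintype.card ι ≤ 2 * m := by
  classical
  have hcov : ∀ a : ι, ∃ t < m, a = i t ∨ a = j t := by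
    intro a
    by_contra hcon
    push Not at hcon
    have : ∀ t ≤ m, ∀ b, P t a b = (1 : Matrix ι ι ℂ) a b := by
      intro t
      induction t with
      | zero => intro _ b; rw [h0]
      | succ t ih =>
        intro ht b
        have h := hcon t (by omega)
        rw [hs t (by omega), (h2 t (by omega)).mul_apply_of_ne _ h.1 h.2]
        exact ih (by omega) b
    apply hX a
    rw [this m le_rfl a, Matrix.one_apply_eq]
  have hsub : (Finset.univ : Finset ι) ⊆
      (Finset.range m).image i ∪ (Finset.range m).image j := by
    intro a _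
    obtain ⟨t, ht, h⟩ := hcov a
    rw [Finset.mem_union, Finset.mem_image, Finset.mem_image]
    rcases h with h | h
    · left; exact ⟨t, Finset.mem_range.2 ht, h.symm⟩
    · right; exact ⟨t, Finset.mem_range.2 ht, h.symm⟩
  have h1 := Finset.card_le_card hsub
  have h3 := Finset.card_union_le ((Finset.range m).image i) ((Finset.range m).image j)
  have h4 : ((Finset.range m).image i).card ≤ m := by
    simpa using Finset.card_image_le (s := Finset.range m) (f := i)
  have h5 : ((Finset.range m).image j).card ≤ m := by
    simpa using Finset.card_image_le (s := Finset.range m) (f := j)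
  rw [Finset.card_univ] at h1
  omega

/-- The trivial bound `n ≤ m`. -/
theorem trivial_bound {n : ℕ} (hn : 2 ≤ n) {α : ℝ} (hα : 0 < α) (hα1 : α ≤ 1)
    (l : List (Matrix (Fin n ⊕ Fin n) (Fin n ⊕ Fin n) ℂ)) (hl : ∀ R ∈ l, IsTwoCoordinate R)
    (hp : l.prod = rotX n α) : n ≤ l.length := by
  have : Nonempty (Fin n ⊕ Fin n) := ⟨Sum.inl ⟨0, by omega⟩⟩
  obtain ⟨P, R, i, j, h0, h2, hs, hm⟩ := exists_chain l hl
  have hX : ∀ a, P l.length a a ≠ 1 := by
    intro a h
    rw [hm, hp, rotX, Matrix.add_apply, Matrix.smul_apply, Matrix.smul_apply, rotG_diag,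
      Matrix.one_apply_eq, smul_zero, add_zero, smul_eq_mul, mul_one] at h
    have h1 : Real.cos α = 1 := by exact_mod_cast h
    have h3 : Real.cos α < 1 := by
      have := Real.cos_lt_cos_of_nonneg_of_le_pi_div_two le_rfl
        (by linarith [Real.pi_gt_three] : α ≤ Real.pi / 2) hα
      rwa [Real.cos_zero] at this
    linarith
  have := card_le_two_mul h0 h2 hs hX
  rw [Fintype.card_sum, Fintype.card_fin] at this
  omega

end RotFourier
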